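import Mathlib
import Pool.Agent.Run7.h53.QR.Conv

/-!
# Clifford symmetries of order divisible by `(p - 1) / 2`

Let `p ≥ 5` be a prime. We determine when a Weyl–Heisenberg SIC fiducial in `ℂ ^ p` can have a
Clifford symmetry whose order modulo scalars is divisible by `(p - 1) / 2`: exactly for `p = 7` and
`p = 19`. After a Clifford change of coordinates such a symmetry generates the dilations by the
nonzero squares modulo `p`, and we show that an eigenvector of all these dilations is fixed by them.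

The case of nontrivial eigenvalues is excluded by reducing the four term relations modulo a place of
`ℂ` above `p` (a valuation ring with residue characteristic `p`), which turns them into power sums
over the prime field. For trivial eigenvalues the entries depend on the quadratic character only,
and the four term relations make the character sums
`∑ j, η (j) η (j + 1) η (j + c) η (j + 1 + c)` take two values, which is impossible modulo `p`
unless `p` divides `228` or `p ≤ 11`.
-/

set_option autoImplicit false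

namespace Pool.Agent.Results.MP_1c78a5_mp.LargeCyclicSymmetry

open Matrix

variable {d : ℕ} [NeZero d]

/-- `ω ^ x` for a residue `x` modulo `d`, where `ω = exp (2 π i / d)` -/
noncomputable def omegaPow (x : ZMod d) : ℂ :=
  Complex.exp (2 * Real.pi * Complex.I * (x.val : ℂ) / (d : ℂ))

/-- the displacement operator `X ^ a Z ^ b`, which maps `|j⟩` to `ω ^ (b j) |j + a⟩` -/
noncomputable def displacement (a b : ZMod d) : Matrix (ZMod d) (ZMod d) ℂ :=
  Matrix.of fun i j => if i = j + a then omegaPow (b * j) else 0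

/-- `ψ` is a Weyl–Heisenberg SIC fiducial: a unit vector with
`|⟨ψ, X ^ a Z ^ b ψ⟩| ^ 2 = 1 / (d + 1)` for all `(a, b) ≠ (0, 0)` -/
def IsFiducial (ψ : ZMod d → ℂ) : Prop :=
  ∑ j, ‖ψ j‖ ^ 2 = 1 ∧ ∀ a b : ZMod d, (a, b) ≠ (0, 0) →
    ‖star ψ ⬝ᵥ (displacement a b *ᵥ ψ)‖ ^ 2 = 1 / ((d : ℝ) + 1)

/-- `U` belongs to the Clifford group: it is unitary and conjugates displacement operators to
displacement operators up to scalars -/
def IsClifford (U : Matrix (ZMod d) (ZMod d) ℂ) : Prop :=
  U ∈ unitaryGroup (ZMod d) ℂ ∧ ∀ a b : ZMod d, ∃ (a' b' : ZMod d) (c : ℂ),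
    U * displacement a b * star U = c • displacement a' b'

/-- `U` is a Clifford symmetry of `ψ` -/
def IsCliffordSymmetry (ψ : ZMod d → ℂ) (U : Matrix (ZMod d) (ZMod d) ℂ) : Prop :=
  IsClifford U ∧ ∃ l : ℂ, U *ᵥ ψ = l • ψ

/-- the order of `U` modulo scalars: the least positive `k` such that `U ^ k` is a scalar -/
noncomputable def orderModScalars (U : Matrix (ZMod d) (ZMod d) ℂ) : ℕ :=
  sInf {k : ℕ | 0 < k ∧ ∃ s : ℂ, U ^ k = s • (1 : Matrix (ZMod d) (ZMod d) ℂ)}

theorem omegaPow_eq (x : ZMod d) : omegaPow x = R503.SIC.e x := by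
  unfold omegaPow R503.SIC.e
  rw [ZMod.stdAddChar_apply, ZMod.toCircle_apply]

theorem displacement_eq (a b : ZMod d) : displacement a b = R503.SIC.Dm a b := by
  ext i j
  simp only [displacement, R503.SIC.Dm, Matrix.of_apply, omegaPow_eq]

theorem overlap_eq (ψ : ZMod d → ℂ) (a b : ZMod d) :
    star ψ ⬝ᵥ (displacement a b *ᵥ ψ) = R503.SIC.ov ψ a b := by
  unfold R503.SIC.ov
  have h1 : ∀ i, (displacement a b *ᵥ ψ) i = omegaPow (b * (i - a)) * ψ (i - a) := by
    intro i
    rw [Matrix.mulVec, dotProduct, Finset.sum_eq_single (i - a)]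
    · simp [displacement]
    · intro j _ hj
      simp only [displacement, Matrix.of_apply]
      rw [if_neg (fun h => hj (by rw [h]; ring)), zero_mul]
    · intro h; exact absurd (Finset.mem_univ _) h
  rw [dotProduct]
  refine Fintype.sum_equiv (Equiv.subRight a) _ _ fun i => ?_
  rw [h1, omegaPow_eq, Pi.star_apply]
  simp

theorem fid_iff (ψ : ZMod d → ℂ) : IsFiducial ψ ↔ R503.SIC.Fid ψ := by
  unfold IsFiducial R503.SIC.Fid
  simp only [overlap_eq]

theorem clifford {U : Matrix (ZMod d) (ZMod d) ℂ} (hU : IsClifford U) :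
    IsUnit U ∧ R503.SIC.Nrm U := by
  have h1 : star U * U = 1 := (Matrix.mem_unitaryGroup_iff').1 hU.1
  have h2 : U * star U = 1 := (Matrix.mem_unitaryGroup_iff).1 hU.1
  refine ⟨⟨⟨U, star U, h2, h1⟩, rfl⟩, fun a b => ?_⟩
  obtain ⟨a', b', c, h⟩ := hU.2 a b
  refine ⟨a', b', c, ?_⟩
  rw [← displacement_eq, ← displacement_eq, ← Matrix.smul_mul, ← h, mul_assoc, h1, mul_one]

/-- **Large cyclic symmetries of Weyl–Heisenberg SICs in prime dimension.** Let `p ≥ 5` be a prime.
There is a Weyl–Heisenberg SIC fiducial in `ℂ ^ p` with a Clifford symmetry whose order modulo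
scalars is divisible by `(p - 1) / 2` if and only if `p` is `7` or `19`. -/
theorem result (p : ℕ) [Fact p.Prime] (hp : 5 ≤ p) :
    (∃ (ψ : ZMod p → ℂ) (U : Matrix (ZMod p) (ZMod p) ℂ), IsFiducial ψ ∧
      IsCliffordSymmetry ψ U ∧ (p - 1) / 2 ∣ orderModScalars U) ↔ (p = 7 ∨ p = 19) := by
  constructor
  · rintro ⟨ψ, U, hψ, hU, hord⟩
    obtain ⟨hC, l, hl⟩ := hU
    obtain ⟨h1, h2⟩ := clifford hC
    exact Run7.h53.QR.clifford_main' hp ((fid_iff ψ).1 hψ) h1 h2 hl hord
  · intro h
    obtain ⟨ψ, hψ, hinv⟩ := Run7.h53.QR.conv_fid (p := p) h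
    obtain ⟨m, hm⟩ : ∃ m, p = 2 * m + 1 := by
      rcases h with h | h
      · exact ⟨3, h⟩
      · exact ⟨9, h⟩
    obtain ⟨g, hg⟩ := IsCyclic.exists_generator (α := (ZMod p)ˣ)
    have hord : orderOf g = p - 1 := by
      rw [orderOf_eq_card_of_forall_mem_zpowers hg, Nat.card_eq_fintype_card, ZMod.card_units]
    have hprim : IsPrimitiveRoot (g : ZMod p) (p - 1) := by
      rw [← hord, IsPrimitiveRoot.coe_units_iff]
      exact IsPrimitiveRoot.orderOf g
    have hprim2 : IsPrimitiveRoot ((g : ZMod p) ^ 2) m := hprim.pow (by omega) (by omega)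
    have hne : (g : ZMod p) ^ 2 ≠ 0 := pow_ne_zero _ g.ne_zero
    have hdm : (p - 1) / 2 = m := by omega
    refine ⟨ψ, Run7.h53.QR.dil ((g : ZMod p) ^ 2), (fid_iff ψ).2 hψ, ⟨⟨?_, fun a b => ?_⟩, 1, ?_⟩,
      ?_⟩
    · rw [Matrix.mem_unitaryGroup_iff, Run7.h53.QR.dil_star hne, Run7.h53.QR.dil_mul,
        mul_inv_cancel₀ hne, Run7.h53.QR.dil_one]
    · refine ⟨((g : ZMod p) ^ 2)⁻¹ * a, (g : ZMod p) ^ 2 * b, 1, ?_⟩
      rw [displacement_eq, displacement_eq, Run7.h53.QR.dil_Dm hne, mul_assoc,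
        Run7.h53.QR.dil_star hne, Run7.h53.QR.dil_mul, mul_inv_cancel₀ hne, Run7.h53.QR.dil_one,
        mul_one, one_smul]
    · funext i
      rw [Run7.h53.QR.dil_mulVec, one_smul]
      exact hinv _ _ g.ne_zero
    · rw [hdm]
      exact dvd_of_eq (Run7.h53.QR.dil_order (by omega) hprim2.eq_orderOf.symm).symm

end Pool.Agent.Results.MP_1c78a5_mp.LargeCyclicSymmetry
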