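import Mathlib
import Pool.Agent.Run7.h40.SICS.Three

/-!
# Weyl–Heisenberg SIC fiducials with at most three Clifford symmetries

Let `ψ` be a Weyl–Heisenberg SIC fiducial in dimension `d`, where `d = m 2 ^ k` with `m + 2 < 2 ^ k`,
or `d = m 3 ^ k` with `k ≥ 3` and `m + 2 ≤ 2 · 3 ^ (k - 2)`, and suppose that `d + 1` is not a square.
Then the group `S` of all Clifford unitaries `U` with `U ψ = ψ` has order `1` or `3`, and every
nontrivial element of `S` is of Zauner type: it acts on the displacements by a matrix `F` with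
`3 (tr F + 1) = 0` modulo the prime power. In particular this holds in the dimensions `4`, `2 ^ k`
with `k ≥ 4`, and `3 ^ k` with `k ≥ 3`. (Every Clifford unitary with eigenvector `ψ` is a scalar
multiple of exactly one element of `S`.)

Idea of the proof. A unitary `U` in `S` acts on the displacements by a matrix `F` of determinant one,
and `|tr U| ^ 2` is the number of fixed vectors of `F`. The displaced vectors `D_v ψ`, `v` fixed by
`F`, lie in the space fixed by `U`, whose dimension is known from the traces; as they have constant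
overlaps, the Welch bound gives `(r - 1) s (s - 1) ≤ d + s` if `U` has prime order `r` and `F` has
`s ^ 2` fixed vectors. Hence `S` acts faithfully modulo the prime power. A matrix of determinant one
and order three modulo `3 ^ k` has trace `-1` modulo `3 ^ (k - 1)` or is trivial modulo
`3 ^ (k - 1)`; the second case is excluded by the bound, and in the first case the matrix is not
trivial modulo three. So `S` acts faithfully modulo two or three. Symmetries of order two exist only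
if `d + 1` is a square.
-/

set_option autoImplicit false

namespace Pool.Agent.Results.MP_1c78a5_mp.OrderOneOrThree

open Matrix
open scoped MatrixGroups

variable {d : ℕ} [NeZero d]

/-- `ω ^ x` for a residue `x` modulo `d`, where `ω = exp (2 π i / d)` -/
noncomputable def omegaPow (x : ZMod d) : ℂ :=
  Complex.exp (2 * Real.pi * Complex.I * (x.val : ℂ) / (d : ℂ))

/-- the displacement operator `X ^ a Z ^ b`, which maps `|j⟩` to `ω ^ (b j) |j + a⟩` -/
noncomputable def displacement (a b : ZMod d) : Matrix (ZMod d) (ZMod d) ℂ :=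
  Matrix.of fun i j => if i = j + a then omegaPow (b * j) else 0

/-- `ψ` is a Weyl–Heisenberg SIC fiducial: a unit vector with
`|⟨ψ, X ^ a Z ^ b ψ⟩| ^ 2 = 1 / (d + 1)` for all `(a, b) ≠ (0, 0)` -/
def IsFiducial (ψ : ZMod d → ℂ) : Prop :=
  ∑ j, ‖ψ j‖ ^ 2 = 1 ∧ ∀ a b : ZMod d, (a, b) ≠ (0, 0) →
    ‖star ψ ⬝ᵥ (displacement a b *ᵥ ψ)‖ ^ 2 = 1 / ((d : ℝ) + 1)

/-- `U` belongs to the Clifford group: it is unitary and conjugates displacement operators to
displacement operators up to scalars -/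
def IsClifford (U : Matrix (ZMod d) (ZMod d) ℂ) : Prop :=
  U ∈ unitaryGroup (ZMod d) ℂ ∧ ∀ a b : ZMod d, ∃ (a' b' : ZMod d) (c : ℂ),
    U * displacement a b * star U = c • displacement a' b'

theorem omegaPow_eq (x : ZMod d) : omegaPow x = R503.SIC.e x := by
  unfold omegaPow R503.SIC.e
  rw [ZMod.stdAddChar_apply, ZMod.toCircle_apply]

theorem displacement_eq (a b : ZMod d) : displacement a b = R503.SIC.Dm a b := by
  ext i j
  simp only [displacement, R503.SIC.Dm, Matrix.of_apply, omegaPow_eq]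

theorem overlap_eq (ψ : ZMod d → ℂ) (a b : ZMod d) :
    star ψ ⬝ᵥ (displacement a b *ᵥ ψ) = R503.SIC.ov ψ a b := by
  rw [displacement_eq]
  exact Run7.h40.SICS.overlap_eq ψ ![a, b]

theorem fid_iff (ψ : ZMod d → ℂ) : IsFiducial ψ ↔ R503.SIC.Fid ψ := by
  unfold IsFiducial R503.SIC.Fid
  simp only [overlap_eq]

theorem clifford_iff {U : Matrix (ZMod d) (ZMod d) ℂ} (hU : U ∈ unitaryGroup (ZMod d) ℂ) :
    IsClifford U ↔ R503.SIC.Nrm U := by
  have h1 : star U * U = 1 := (Matrix.mem_unitaryGroup_iff').1 hU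
  have h2 : U * star U = 1 := (Matrix.mem_unitaryGroup_iff).1 hU
  constructor
  · rintro ⟨-, hC⟩ a b
    obtain ⟨a', b', c, h⟩ := hC a b
    refine ⟨a', b', c, ?_⟩
    rw [← displacement_eq, ← displacement_eq, ← Matrix.smul_mul, ← h, mul_assoc, h1, mul_one]
  · intro hN
    refine ⟨hU, fun a b => ?_⟩
    obtain ⟨a', b', c, h⟩ := hN a b
    refine ⟨a', b', c, ?_⟩
    rw [displacement_eq, displacement_eq, h, Matrix.smul_mul, mul_assoc, h2, mul_one]

theorem nrm_star {U : Matrix (ZMod d) (ZMod d) ℂ} (hU : U ∈ unitaryGroup (ZMod d) ℂ)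
    (hN : R503.SIC.Nrm U) : R503.SIC.Nrm (star U) := by
  have h1 : star U * U = 1 := (Matrix.mem_unitaryGroup_iff').1 hU
  have h2 : U * star U = 1 := (Matrix.mem_unitaryGroup_iff).1 hU
  have hunit : IsUnit U := ⟨⟨U, star U, h2, h1⟩, rfl⟩
  obtain ⟨F, hF⟩ := Run7.h40.SICS.exists_rep hunit hN
  have hdet := hF.det hunit
  intro a b
  obtain ⟨c, hc⟩ := hF (F⁻¹ *ᵥ ![a, b])
  have hFF : F * F⁻¹ = 1 := Matrix.mul_nonsing_inv F (by rw [hdet]; exact isUnit_one)
  rw [Matrix.mulVec_mulVec, hFF, Matrix.one_mulVec] at hc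
  have hc0 := Run7.h40.SICS.c_ne hunit hc
  refine ⟨(F⁻¹ *ᵥ ![a, b]) 0, (F⁻¹ *ᵥ ![a, b]) 1, c⁻¹, ?_⟩
  change star U * Run7.h40.SICS.DD ![a, b] =
    c⁻¹ • (Run7.h40.SICS.DD (F⁻¹ *ᵥ ![a, b]) * star U)
  have h3 : Run7.h40.SICS.DD (F⁻¹ *ᵥ ![a, b]) * star U =
      c • (star U * Run7.h40.SICS.DD ![a, b]) := by
    calc Run7.h40.SICS.DD (F⁻¹ *ᵥ ![a, b]) * star U
        = star U * (U * Run7.h40.SICS.DD (F⁻¹ *ᵥ ![a, b])) * star U := by
          rw [← mul_assoc, h1, one_mul]
      _ = c • (star U * Run7.h40.SICS.DD ![a, b] * (U * star U)) := by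
          rw [hc, Matrix.mul_smul, Matrix.smul_mul]
          congr 1
          simp only [mul_assoc]
      _ = _ := by rw [h2, mul_one]
  rw [h3, smul_smul, inv_mul_cancel₀ hc0, one_smul]

/-- the group of all Clifford unitaries `U` with `U ψ = ψ` -/
def symmetryGroup (ψ : ZMod d → ℂ) : Subgroup (unitaryGroup (ZMod d) ℂ) where
  carrier := {U | IsClifford (U : Matrix (ZMod d) (ZMod d) ℂ) ∧
    (U : Matrix (ZMod d) (ZMod d) ℂ) *ᵥ ψ = ψ}
  one_mem' := by
    refine ⟨(clifford_iff (Subtype.prop _)).2 R503.SIC.Nrm.one, ?_⟩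
    exact Matrix.one_mulVec ψ
  mul_mem' := by
    rintro U V ⟨hU1, hU2⟩ ⟨hV1, hV2⟩
    refine ⟨(clifford_iff (Subtype.prop _)).2
      (((clifford_iff U.2).1 hU1).mul ((clifford_iff V.2).1 hV1)), ?_⟩
    change ((U : Matrix (ZMod d) (ZMod d) ℂ) * (V : Matrix (ZMod d) (ZMod d) ℂ)) *ᵥ ψ = ψ
    rw [← Matrix.mulVec_mulVec, hV2, hU2]
  inv_mem' := by
    rintro U ⟨hU1, hU2⟩
    refine ⟨(clifford_iff (Subtype.prop _)).2 (nrm_star U.2 ((clifford_iff U.2).1 hU1)), ?_⟩
    change star (U : Matrix (ZMod d) (ZMod d) ℂ) *ᵥ ψ = ψ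
    conv_lhs => rw [← hU2]
    rw [Matrix.mulVec_mulVec, (Matrix.mem_unitaryGroup_iff').1 U.2, Matrix.one_mulVec]

theorem isSym (ψ : ZMod d → ℂ) : Run7.h40.SICS.IsSym ψ
    (((unitaryGroup (ZMod d) ℂ).subtype).comp (symmetryGroup ψ).subtype) where
  inj := fun _ _ h => Subtype.ext (Subtype.ext h)
  adj := fun _ => rfl
  nrm := fun g => (clifford_iff g.1.2).1 g.2.1
  fix := fun g => g.2.2

/-- **At most three Clifford symmetries.** Let `d = m q ^ k`, where `q = 2` and `m + 2 < 2 ^ k`, or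
`q = 3`, `k ≥ 3` and `m + 2 ≤ 2 · 3 ^ (k - 2)`. Suppose that `d + 1` is not a perfect square, or that
`m = 1` and `d ≠ 8`. Let `ψ` be a Weyl–Heisenberg SIC fiducial in dimension `d`. Then the group of
all Clifford unitaries fixing `ψ` has order `1` or `3`, and a nontrivial element of this group acts on
the displacement operators by a matrix `F` for which `q ^ k` divides `3 (tr F + 1)`. -/
theorem result (q k m d : ℕ) [NeZero d]
    (hq : (q = 2 ∧ m + 2 < 2 ^ k) ∨ (q = 3 ∧ 3 ≤ k ∧ m + 2 ≤ 2 * 3 ^ (k - 2)))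
    (hd : d = m * q ^ k) (hsq : ¬ IsSquare (d + 1) ∨ (m = 1 ∧ d ≠ 8))
    (ψ : ZMod d → ℂ) (hψ : IsFiducial ψ) :
    (Nat.card (symmetryGroup ψ) = 1 ∨ Nat.card (symmetryGroup ψ) = 3) ∧
    ∀ U ∈ symmetryGroup ψ, U ≠ 1 → ∀ F : Matrix (Fin 2) (Fin 2) (ZMod d),
      (∀ v : Fin 2 → ZMod d, ∃ c : ℂ,
        (U : Matrix (ZMod d) (ZMod d) ℂ) * displacement (v 0) (v 1) =
          c • (displacement ((F *ᵥ v) 0) ((F *ᵥ v) 1) * (U : Matrix (ZMod d) (ZMod d) ℂ))) →
      q ^ k ∣ (3 * (F.trace + 1)).val := by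
  have hf := (fid_iff ψ).1 hψ
  have hS := isSym ψ
  have hqp : q.Prime := by
    rcases hq with ⟨h, -⟩ | ⟨h, -⟩
    · rw [h]; exact Nat.prime_two
    · rw [h]; exact Nat.prime_three
  have : NeZero (q ^ k) := ⟨(pow_pos hqp.pos k).ne'⟩
  have hk : 1 ≤ k := by
    rcases hq with ⟨h, h1⟩ | ⟨h, h1, -⟩
    · by_contra hcon
      have : k = 0 := by omega
      rw [this] at h1
      norm_num at h1
    · omega
  have hq' : (q = 2 ∧ 1 ≤ k ∧ m + 2 < 2 ^ k) ∨ (q = 3 ∧ 3 ≤ k ∧ m + 2 ≤ 2 * 3 ^ (k - 2)) := by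
    rcases hq with ⟨h, h1⟩ | h
    · exact Or.inl ⟨h, hk, h1⟩
    · exact Or.inr h
  have hsq' : ¬ IsSquare (d + 1) := by
    rcases hsq with h | ⟨h1, h8⟩
    · exact h
    · rintro ⟨t, ht⟩
      have h3 := R503.SIC.primePow (t := t) (d := d) (by rw [pow_two, ht]) (by
        rw [hd, h1, one_mul]
        exact hqp.isPrimePow.pow (by omega))
      rcases h3 with h3 | h3
      · rcases hq with ⟨h, h4⟩ | ⟨h, h4, -⟩
        · rw [h1, one_mul, h] at hd
          rw [hd] at h3
          have h5 : 2 ∣ 2 ^ k := dvd_pow_self 2 (by omega)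
          rw [h3] at h5
          norm_num at h5
        · rw [h1, one_mul, h] at hd
          have h5 : 3 ^ 3 ≤ 3 ^ k := Nat.pow_le_pow_right (by norm_num) h4
          omega
      · exact h8 h3
  refine ⟨hS.main23 hf hq' hd hsq', ?_⟩
  intro U hU hne F hF
  obtain ⟨ρ, hρ⟩ := hS.exists_rho
  obtain ⟨g, hg⟩ : ∃ g : symmetryGroup ψ, (g : unitaryGroup (ZMod d) ℂ) = U := ⟨⟨U, hU⟩, rfl⟩
  have hg1 : g ≠ 1 := by
    rintro rfl
    exact hne hg.symm
  have h1 : F = ρ g := by
    refine Run7.h40.SICS.Rep.unique (Run7.h40.SICS.isUnit_u _ g) ?_ (hρ g)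
    intro v
    obtain ⟨c, hc⟩ := hF v
    refine ⟨c, ?_⟩
    rw [displacement_eq, displacement_eq, ← hg] at hc
    exact hc
  have h2 := hS.zauner23 hf hq' hd hsq' hρ hg1
  rw [← h1] at h2
  have h3 : Run7.h40.SICS.red (D := q ^ k) hd (3 * (F.trace + 1)) = 0 := by
    have h4 : (F.map (Run7.h40.SICS.red (D := q ^ k) hd)).trace =
        Run7.h40.SICS.red (D := q ^ k) hd F.trace := by
      rw [Matrix.trace_fin_two, Matrix.trace_fin_two, map_add]
      rfl
    rw [map_mul, map_add, map_one, ← h4, map_ofNat]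
    exact h2
  have h5 : ((3 * (F.trace + 1)).val : ZMod d) = 3 * (F.trace + 1) := ZMod.natCast_zmod_val _
  rw [← h5, map_natCast, ZMod.natCast_eq_zero_iff] at h3
  exact h3

end Pool.Agent.Results.MP_1c78a5_mp.OrderOneOrThree
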