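import Mathlib
import Pool.Agent.Run7.h40.SICS.Divs

/-!
# The orders of Clifford symmetries of Weyl–Heisenberg SIC fiducials in arbitrary dimension

Let `ψ` be a Weyl–Heisenberg SIC fiducial in any dimension `d`, and let `S` be the group of all
Clifford unitaries `U` with `U ψ = ψ` (every Clifford unitary with eigenvector `ψ` is a scalar multiple
of exactly one element of `S`). The group `S` acts faithfully on the displacements by matrices of
determinant one over `ℤ/d`, so the primes dividing its order a priori divide `d` or `ℓ ^ 2 - 1` for a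
prime `ℓ` dividing `d`. We show that for primes `p ≥ 5` the first case does not occur: if `p` divides
the order of `S` then `p` divides `ℓ ^ 2 - 1` for some prime `ℓ ∣ d`. Moreover, the part of `d` made up
of these primes is large: if `d = m n` and no such `ℓ` divides `m` then `(p - 1) m ≤ p ^ 2 (n + 1)`.
For example, if all primes dividing `d` are among `2, 3, 5, 7, 17` then `S` has order `2 ^ a 3 ^ b`,
and order `3 ^ b` if moreover `d + 1` is not a square.

Idea of the proof. If `U` in `S` acts by the matrix `F` then `|tr U| ^ 2` is the number of fixed vectors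
of `F`. The displaced vectors `D_v ψ`, `v` fixed by `F`, lie in the space fixed by `U`, whose dimension
is known from the traces; as they have constant overlaps, the Welch bound gives
`(p - 1) s (s - 1) ≤ d + s` if `U` has prime order `p` and `F` has `s ^ 2` fixed vectors. But if no
prime `ℓ ∣ m` satisfies `p ∣ ℓ ^ 2 - 1` then `F` is trivial modulo the part of `m` prime to `p`, and
modulo the `p`-part it is trivial up to the `p`-torsion (here `p ≥ 5` is used), so `F` has many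
fixed vectors.
-/

set_option autoImplicit false

namespace Pool.Agent.Results.MP_1c78a5_mp.PrimeDivisors

open Matrix
open scoped MatrixGroups

variable {d : ℕ} [NeZero d]

/-- `ω ^ x` for a residue `x` modulo `d`, where `ω = exp (2 π i / d)` -/
noncomputable def omegaPow (x : ZMod d) : ℂ :=
  Complex.exp (2 * Real.pi * Complex.I * (x.val : ℂ) / (d : ℂ))

/-- the displacement operator `X ^ a Z ^ b`, which maps `|j⟩` to `ω ^ (b j) |j + a⟩` -/
noncomputable def displacement (a b : ZMod d) : Matrix (ZMod d) (ZMod d) ℂ :=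
  Matrix.of fun i j => if i = j + a then omegaPow (b * j) else 0

/-- `ψ` is a Weyl–Heisenberg SIC fiducial: a unit vector with
`|⟨ψ, X ^ a Z ^ b ψ⟩| ^ 2 = 1 / (d + 1)` for all `(a, b) ≠ (0, 0)` -/
def IsFiducial (ψ : ZMod d → ℂ) : Prop :=
  ∑ j, ‖ψ j‖ ^ 2 = 1 ∧ ∀ a b : ZMod d, (a, b) ≠ (0, 0) →
    ‖star ψ ⬝ᵥ (displacement a b *ᵥ ψ)‖ ^ 2 = 1 / ((d : ℝ) + 1)

/-- `U` belongs to the Clifford group: it is unitary and conjugates displacement operators to
displacement operators up to scalars -/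
def IsClifford (U : Matrix (ZMod d) (ZMod d) ℂ) : Prop :=
  U ∈ unitaryGroup (ZMod d) ℂ ∧ ∀ a b : ZMod d, ∃ (a' b' : ZMod d) (c : ℂ),
    U * displacement a b * star U = c • displacement a' b'

theorem omegaPow_eq (x : ZMod d) : omegaPow x = R503.SIC.e x := by
  unfold omegaPow R503.SIC.e
  rw [ZMod.stdAddChar_apply, ZMod.toCircle_apply]

theorem displacement_eq (a b : ZMod d) : displacement a b = R503.SIC.Dm a b := by
  ext i j
  simp only [displacement, R503.SIC.Dm, Matrix.of_apply, omegaPow_eq]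

theorem overlap_eq (ψ : ZMod d → ℂ) (a b : ZMod d) :
    star ψ ⬝ᵥ (displacement a b *ᵥ ψ) = R503.SIC.ov ψ a b := by
  rw [displacement_eq]
  exact Run7.h40.SICS.overlap_eq ψ ![a, b]

theorem fid_iff (ψ : ZMod d → ℂ) : IsFiducial ψ ↔ R503.SIC.Fid ψ := by
  unfold IsFiducial R503.SIC.Fid
  simp only [overlap_eq]

theorem clifford_iff {U : Matrix (ZMod d) (ZMod d) ℂ} (hU : U ∈ unitaryGroup (ZMod d) ℂ) :
    IsClifford U ↔ R503.SIC.Nrm U := by
  have h1 : star U * U = 1 := (Matrix.mem_unitaryGroup_iff').1 hU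
  have h2 : U * star U = 1 := (Matrix.mem_unitaryGroup_iff).1 hU
  constructor
  · rintro ⟨-, hC⟩ a b
    obtain ⟨a', b', c, h⟩ := hC a b
    refine ⟨a', b', c, ?_⟩
    rw [← displacement_eq, ← displacement_eq, ← Matrix.smul_mul, ← h, mul_assoc, h1, mul_one]
  · intro hN
    refine ⟨hU, fun a b => ?_⟩
    obtain ⟨a', b', c, h⟩ := hN a b
    refine ⟨a', b', c, ?_⟩
    rw [displacement_eq, displacement_eq, h, Matrix.smul_mul, mul_assoc, h2, mul_one]

theorem nrm_star {U : Matrix (ZMod d) (ZMod d) ℂ} (hU : U ∈ unitaryGroup (ZMod d) ℂ)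
    (hN : R503.SIC.Nrm U) : R503.SIC.Nrm (star U) := by
  have h1 : star U * U = 1 := (Matrix.mem_unitaryGroup_iff').1 hU
  have h2 : U * star U = 1 := (Matrix.mem_unitaryGroup_iff).1 hU
  have hunit : IsUnit U := ⟨⟨U, star U, h2, h1⟩, rfl⟩
  obtain ⟨F, hF⟩ := Run7.h40.SICS.exists_rep hunit hN
  have hdet := hF.det hunit
  intro a b
  obtain ⟨c, hc⟩ := hF (F⁻¹ *ᵥ ![a, b])
  have hFF : F * F⁻¹ = 1 := Matrix.mul_nonsing_inv F (by rw [hdet]; exact isUnit_one)
  rw [Matrix.mulVec_mulVec, hFF, Matrix.one_mulVec] at hc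
  have hc0 := Run7.h40.SICS.c_ne hunit hc
  refine ⟨(F⁻¹ *ᵥ ![a, b]) 0, (F⁻¹ *ᵥ ![a, b]) 1, c⁻¹, ?_⟩
  change star U * Run7.h40.SICS.DD ![a, b] =
    c⁻¹ • (Run7.h40.SICS.DD (F⁻¹ *ᵥ ![a, b]) * star U)
  have h3 : Run7.h40.SICS.DD (F⁻¹ *ᵥ ![a, b]) * star U =
      c • (star U * Run7.h40.SICS.DD ![a, b]) := by
    calc Run7.h40.SICS.DD (F⁻¹ *ᵥ ![a, b]) * star U
        = star U * (U * Run7.h40.SICS.DD (F⁻¹ *ᵥ ![a, b])) * star U := by
          rw [← mul_assoc, h1, one_mul]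
      _ = c • (star U * Run7.h40.SICS.DD ![a, b] * (U * star U)) := by
          rw [hc, Matrix.mul_smul, Matrix.smul_mul]
          congr 1
          simp only [mul_assoc]
      _ = _ := by rw [h2, mul_one]
  rw [h3, smul_smul, inv_mul_cancel₀ hc0, one_smul]

/-- the group of all Clifford unitaries `U` with `U ψ = ψ` -/
def symmetryGroup (ψ : ZMod d → ℂ) : Subgroup (unitaryGroup (ZMod d) ℂ) where
  carrier := {U | IsClifford (U : Matrix (ZMod d) (ZMod d) ℂ) ∧
    (U : Matrix (ZMod d) (ZMod d) ℂ) *ᵥ ψ = ψ}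
  one_mem' := by
    refine ⟨(clifford_iff (Subtype.prop _)).2 R503.SIC.Nrm.one, ?_⟩
    exact Matrix.one_mulVec ψ
  mul_mem' := by
    rintro U V ⟨hU1, hU2⟩ ⟨hV1, hV2⟩
    refine ⟨(clifford_iff (Subtype.prop _)).2
      (((clifford_iff U.2).1 hU1).mul ((clifford_iff V.2).1 hV1)), ?_⟩
    change ((U : Matrix (ZMod d) (ZMod d) ℂ) * (V : Matrix (ZMod d) (ZMod d) ℂ)) *ᵥ ψ = ψ
    rw [← Matrix.mulVec_mulVec, hV2, hU2]
  inv_mem' := by
    rintro U ⟨hU1, hU2⟩
    refine ⟨(clifford_iff (Subtype.prop _)).2 (nrm_star U.2 ((clifford_iff U.2).1 hU1)), ?_⟩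
    change star (U : Matrix (ZMod d) (ZMod d) ℂ) *ᵥ ψ = ψ
    conv_lhs => rw [← hU2]
    rw [Matrix.mulVec_mulVec, (Matrix.mem_unitaryGroup_iff').1 U.2, Matrix.one_mulVec]

theorem isSym (ψ : ZMod d → ℂ) : Run7.h40.SICS.IsSym ψ
    (((unitaryGroup (ZMod d) ℂ).subtype).comp (symmetryGroup ψ).subtype) where
  inj := fun _ _ h => Subtype.ext (Subtype.ext h)
  adj := fun _ => rfl
  nrm := fun g => (clifford_iff g.1.2).1 g.2.1
  fix := fun g => g.2.2

theorem eq_pow_mul_pow {n : ℕ} (hn : n ≠ 0) (h : ∀ p, p.Prime → p ∣ n → p = 2 ∨ p = 3) :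
    ∃ a b, n = 2 ^ a * 3 ^ b := by
  obtain ⟨a, n', hn', h1⟩ := Nat.exists_eq_pow_mul_and_not_dvd hn 2 (by norm_num)
  have hn'0 : n' ≠ 0 := by
    rintro rfl
    rw [mul_zero] at h1
    exact hn h1
  obtain ⟨b, n'', hn'', h2⟩ := Nat.exists_eq_pow_mul_and_not_dvd hn'0 3 (by norm_num)
  refine ⟨a, b, ?_⟩
  have h3 : n'' = 1 := by
    by_contra hne
    obtain ⟨p, hp, hpn⟩ := Nat.exists_prime_and_dvd hne
    have h4 : p ∣ n' := by rw [h2]; exact hpn.mul_left _
    have h5 : p ∣ n := by rw [h1]; exact h4.mul_left _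
    rcases h p hp h5 with h6 | h6
    · rw [h6] at h4
      exact hn' h4
    · rw [h6] at hpn
      exact hn'' hpn
  rw [h1, h2, h3, mul_one]

/-- **Prime divisors of the order of the Clifford symmetry group.** Let `ψ` be a Weyl–Heisenberg SIC
fiducial in dimension `d`, and let `S` be the group of all Clifford unitaries fixing `ψ`. Then `S` is
finite. If a prime `p ≥ 5` divides the order of `S`, then `p` divides `ℓ ^ 2 - 1` for a prime `ℓ`
dividing `d`; moreover `(p - 1) m ≤ p ^ 2 (n + 1)` for every factorization `d = m n` such that `p` does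
not divide `ℓ ^ 2 - 1` for any prime `ℓ` dividing `m`. If all primes dividing `d` are among
`2, 3, 5, 7, 17`, then the order of `S` is `2 ^ a 3 ^ b`, with `a = 0` if `d + 1` is not a square. -/
theorem result (d : ℕ) [NeZero d] (ψ : ZMod d → ℂ) (hψ : IsFiducial ψ) :
    Finite (symmetryGroup ψ) ∧
    (∀ p : ℕ, p.Prime → 5 ≤ p → p ∣ Nat.card (symmetryGroup ψ) →
      (∃ l : ℕ, l.Prime ∧ l ∣ d ∧ p ∣ l ^ 2 - 1) ∧
      ∀ m n : ℕ, d = m * n → (∀ l : ℕ, l.Prime → l ∣ m → ¬ p ∣ l ^ 2 - 1) →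
        (p - 1) * m ≤ p ^ 2 * (n + 1)) ∧
    ((∀ l : ℕ, l.Prime → l ∣ d → l = 2 ∨ l = 3 ∨ l = 5 ∨ l = 7 ∨ l = 17) →
      ∃ a b : ℕ, Nat.card (symmetryGroup ψ) = 2 ^ a * 3 ^ b ∧ (¬ IsSquare (d + 1) → a = 0)) := by
  have hf := (fid_iff ψ).1 hψ
  have hS := isSym ψ
  have hfin : Finite (symmetryGroup ψ) := hS.finite hf
  have key : ∀ p : ℕ, p.Prime → 5 ≤ p → p ∣ Nat.card (symmetryGroup ψ) →
      ∀ m n : ℕ, d = m * n → (∀ l : ℕ, l.Prime → l ∣ m → ¬ p ∣ l ^ 2 - 1) →
        1 < n ∧ (p - 1) * m ≤ p ^ 2 * (n + 1) := by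
    intro p hp h5 hdvd m n hmn hl
    have : Fact p.Prime := ⟨hp⟩
    obtain ⟨g, hg⟩ := exists_prime_orderOf_dvd_card' (G := symmetryGroup ψ) p hdvd
    have : NeZero m := ⟨by
      rintro rfl
      rw [zero_mul] at hmn
      exact NeZero.ne d hmn⟩
    exact hS.prime_div hf hp h5 hg (by rw [hmn, mul_comm]) hl
  have key1 : ∀ p : ℕ, p.Prime → 5 ≤ p → p ∣ Nat.card (symmetryGroup ψ) →
      ∃ l : ℕ, l.Prime ∧ l ∣ d ∧ p ∣ l ^ 2 - 1 := by
    intro p hp h5 hdvd
    by_contra hcon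
    push Not at hcon
    have := (key p hp h5 hdvd d 1 (mul_one d).symm hcon).1
    exact lt_irrefl _ this
  refine ⟨hfin, fun p hp h5 hdvd => ⟨key1 p hp h5 hdvd, fun m n hmn hl =>
    (key p hp h5 hdvd m n hmn hl).2⟩, ?_⟩
  intro hl
  have h23 : ∀ p, p.Prime → p ∣ Nat.card (symmetryGroup ψ) → p = 2 ∨ p = 3 := by
    intro p hp hdvd
    by_contra hcon
    push Not at hcon
    have h5 : 5 ≤ p := by
      have h2 := hp.two_le
      have h4 : p ≠ 4 := by
        rintro rfl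
        exact absurd hp (by norm_num)
      omega
    obtain ⟨l, hlp, hld, hdiv⟩ := key1 p hp h5 hdvd
    have hprime : ∀ n : ℕ, n ∣ 2 ^ 5 * 3 ^ 2 → p ∣ n → False := by
      intro n hn hpn
      rcases (hp.dvd_mul).1 (hpn.trans hn) with h | h
      · have := (Nat.prime_dvd_prime_iff_eq hp Nat.prime_two).1 (hp.dvd_of_dvd_pow h)
        exact hcon.1 this
      · have := (Nat.prime_dvd_prime_iff_eq hp Nat.prime_three).1 (hp.dvd_of_dvd_pow h)
        exact hcon.2 this
    rcases hl l hlp hld with h | h | h | h | h <;> rw [h] at hdiv <;>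
      exact hprime _ (by norm_num) hdiv
  have hcard : Nat.card (symmetryGroup ψ) ≠ 0 := Nat.card_pos.ne'
  obtain ⟨a, b, hab⟩ := eq_pow_mul_pow hcard h23
  refine ⟨a, b, hab, fun hsq => ?_⟩
  by_contra ha
  have hodd := hS.odd hf hsq
  rw [hab] at hodd
  have h2 : 2 ∣ 2 ^ a * 3 ^ b := (dvd_pow_self 2 ha).mul_right _
  exact (Nat.not_even_iff_odd.2 hodd) (even_iff_two_dvd.2 h2)

end Pool.Agent.Results.MP_1c78a5_mp.PrimeDivisors
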