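import Mathlib
import Pool.Agent.Run7.h40.SICS.Final

/-!
# Clifford symmetries of Weyl–Heisenberg SIC fiducials in dimensions `m p ^ k`

Let `ψ` be a Weyl–Heisenberg SIC fiducial in dimension `d = m p ^ k`, `p ≥ 5` prime, where
`m < p - 1 - √p` (for `k ≥ 2` it suffices that `m < p ^ (k - 1) - p ^ (k - 2) - 1`). Let `S` be the
group of all Clifford unitaries `U` with `U ψ = ψ` (every Clifford unitary with eigenvector `ψ` is a scalar
multiple of exactly one element of `S`). Then the order of `S` is prime to `p`, `S` is isomorphic to a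
subgroup of `SL(2, ℤ/p)`, and no nonscalar Clifford symmetry of `ψ` commutes up to scalars with
`X ^ a Z ^ b` unless `p ^ k` divides `a` and `b`. If `d + 1` is not a square, in particular if `d` is
a power of `p`, then `S` is cyclic and its order is odd and divides `p - 1` or `p + 1`.

Idea of the proof. A unitary `U` in `S` acts on the displacements by a matrix `F` of determinant one,
and `|tr U| ^ 2` is the number of fixed vectors of `F`. The displaced vectors `D_v ψ`, `v` fixed by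
`F`, lie in the space fixed by `U`, whose dimension is known from the traces; as they have constant
overlaps, the Welch bound gives `(r - 1) s (s - 1) ≤ d + s` if `U` has prime order `r` and `F` has
`s ^ 2` fixed vectors. On the other hand a matrix of determinant one over `ℤ/p^k`, `p ≥ 5`, of order
`p` is trivial modulo the `p`-torsion and has many fixed vectors, and a matrix of order prime to `p`
has no nonzero fixed vectors unless it is trivial. Finally a group of odd order prime to `p` which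
acts freely on `(ℤ/p)^2` with determinant one is cyclic, by the Frobenius–Schur count of square roots.
-/

set_option autoImplicit false

namespace Pool.Agent.Results.MP_1c78a5_mp.PrimePowerSymmetry

open Matrix
open scoped MatrixGroups

variable {d : ℕ} [NeZero d]

/-- `ω ^ x` for a residue `x` modulo `d`, where `ω = exp (2 π i / d)` -/
noncomputable def omegaPow (x : ZMod d) : ℂ :=
  Complex.exp (2 * Real.pi * Complex.I * (x.val : ℂ) / (d : ℂ))

/-- the displacement operator `X ^ a Z ^ b`, which maps `|j⟩` to `ω ^ (b j) |j + a⟩` -/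
noncomputable def displacement (a b : ZMod d) : Matrix (ZMod d) (ZMod d) ℂ :=
  Matrix.of fun i j => if i = j + a then omegaPow (b * j) else 0

/-- `ψ` is a Weyl–Heisenberg SIC fiducial: a unit vector with
`|⟨ψ, X ^ a Z ^ b ψ⟩| ^ 2 = 1 / (d + 1)` for all `(a, b) ≠ (0, 0)` -/
def IsFiducial (ψ : ZMod d → ℂ) : Prop :=
  ∑ j, ‖ψ j‖ ^ 2 = 1 ∧ ∀ a b : ZMod d, (a, b) ≠ (0, 0) →
    ‖star ψ ⬝ᵥ (displacement a b *ᵥ ψ)‖ ^ 2 = 1 / ((d : ℝ) + 1)

/-- `U` belongs to the Clifford group: it is unitary and conjugates displacement operators to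
displacement operators up to scalars -/
def IsClifford (U : Matrix (ZMod d) (ZMod d) ℂ) : Prop :=
  U ∈ unitaryGroup (ZMod d) ℂ ∧ ∀ a b : ZMod d, ∃ (a' b' : ZMod d) (c : ℂ),
    U * displacement a b * star U = c • displacement a' b'

theorem omegaPow_eq (x : ZMod d) : omegaPow x = R503.SIC.e x := by
  unfold omegaPow R503.SIC.e
  rw [ZMod.stdAddChar_apply, ZMod.toCircle_apply]

theorem displacement_eq (a b : ZMod d) : displacement a b = R503.SIC.Dm a b := by
  ext i j
  simp only [displacement, R503.SIC.Dm, Matrix.of_apply, omegaPow_eq]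

theorem overlap_eq (ψ : ZMod d → ℂ) (a b : ZMod d) :
    star ψ ⬝ᵥ (displacement a b *ᵥ ψ) = R503.SIC.ov ψ a b := by
  rw [displacement_eq]
  exact Run7.h40.SICS.overlap_eq ψ ![a, b]

theorem fid_iff (ψ : ZMod d → ℂ) : IsFiducial ψ ↔ R503.SIC.Fid ψ := by
  unfold IsFiducial R503.SIC.Fid
  simp only [overlap_eq]

theorem clifford_iff {U : Matrix (ZMod d) (ZMod d) ℂ} (hU : U ∈ unitaryGroup (ZMod d) ℂ) :
    IsClifford U ↔ R503.SIC.Nrm U := by
  have h1 : star U * U = 1 := (Matrix.mem_unitaryGroup_iff').1 hU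
  have h2 : U * star U = 1 := (Matrix.mem_unitaryGroup_iff).1 hU
  constructor
  · rintro ⟨-, hC⟩ a b
    obtain ⟨a', b', c, h⟩ := hC a b
    refine ⟨a', b', c, ?_⟩
    rw [← displacement_eq, ← displacement_eq, ← Matrix.smul_mul, ← h, mul_assoc, h1, mul_one]
  · intro hN
    refine ⟨hU, fun a b => ?_⟩
    obtain ⟨a', b', c, h⟩ := hN a b
    refine ⟨a', b', c, ?_⟩
    rw [displacement_eq, displacement_eq, h, Matrix.smul_mul, mul_assoc, h2, mul_one]

theorem nrm_star {U : Matrix (ZMod d) (ZMod d) ℂ} (hU : U ∈ unitaryGroup (ZMod d) ℂ)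
    (hN : R503.SIC.Nrm U) : R503.SIC.Nrm (star U) := by
  have h1 : star U * U = 1 := (Matrix.mem_unitaryGroup_iff').1 hU
  have h2 : U * star U = 1 := (Matrix.mem_unitaryGroup_iff).1 hU
  have hunit : IsUnit U := ⟨⟨U, star U, h2, h1⟩, rfl⟩
  obtain ⟨F, hF⟩ := Run7.h40.SICS.exists_rep hunit hN
  have hdet := hF.det hunit
  intro a b
  obtain ⟨c, hc⟩ := hF (F⁻¹ *ᵥ ![a, b])
  have hFF : F * F⁻¹ = 1 := Matrix.mul_nonsing_inv F (by rw [hdet]; exact isUnit_one)
  rw [Matrix.mulVec_mulVec, hFF, Matrix.one_mulVec] at hc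
  have hc0 := Run7.h40.SICS.c_ne hunit hc
  refine ⟨(F⁻¹ *ᵥ ![a, b]) 0, (F⁻¹ *ᵥ ![a, b]) 1, c⁻¹, ?_⟩
  change star U * Run7.h40.SICS.DD ![a, b] =
    c⁻¹ • (Run7.h40.SICS.DD (F⁻¹ *ᵥ ![a, b]) * star U)
  have h3 : Run7.h40.SICS.DD (F⁻¹ *ᵥ ![a, b]) * star U =
      c • (star U * Run7.h40.SICS.DD ![a, b]) := by
    calc Run7.h40.SICS.DD (F⁻¹ *ᵥ ![a, b]) * star U
        = star U * (U * Run7.h40.SICS.DD (F⁻¹ *ᵥ ![a, b])) * star U := by
          rw [← mul_assoc, h1, one_mul]
      _ = c • (star U * Run7.h40.SICS.DD ![a, b] * (U * star U)) := by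
          rw [hc, Matrix.mul_smul, Matrix.smul_mul]
          congr 1
          simp only [mul_assoc]
      _ = _ := by rw [h2, mul_one]
  rw [h3, smul_smul, inv_mul_cancel₀ hc0, one_smul]

/-- the group of all Clifford unitaries `U` with `U ψ = ψ` -/
def symmetryGroup (ψ : ZMod d → ℂ) : Subgroup (unitaryGroup (ZMod d) ℂ) where
  carrier := {U | IsClifford (U : Matrix (ZMod d) (ZMod d) ℂ) ∧
    (U : Matrix (ZMod d) (ZMod d) ℂ) *ᵥ ψ = ψ}
  one_mem' := by
    refine ⟨(clifford_iff (Subtype.prop _)).2 R503.SIC.Nrm.one, ?_⟩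
    exact Matrix.one_mulVec ψ
  mul_mem' := by
    rintro U V ⟨hU1, hU2⟩ ⟨hV1, hV2⟩
    refine ⟨(clifford_iff (Subtype.prop _)).2
      (((clifford_iff U.2).1 hU1).mul ((clifford_iff V.2).1 hV1)), ?_⟩
    change ((U : Matrix (ZMod d) (ZMod d) ℂ) * (V : Matrix (ZMod d) (ZMod d) ℂ)) *ᵥ ψ = ψ
    rw [← Matrix.mulVec_mulVec, hV2, hU2]
  inv_mem' := by
    rintro U ⟨hU1, hU2⟩
    refine ⟨(clifford_iff (Subtype.prop _)).2 (nrm_star U.2 ((clifford_iff U.2).1 hU1)), ?_⟩
    change star (U : Matrix (ZMod d) (ZMod d) ℂ) *ᵥ ψ = ψ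
    conv_lhs => rw [← hU2]
    rw [Matrix.mulVec_mulVec, (Matrix.mem_unitaryGroup_iff').1 U.2, Matrix.one_mulVec]

theorem isSym (ψ : ZMod d → ℂ) : Run7.h40.SICS.IsSym ψ
    (((unitaryGroup (ZMod d) ℂ).subtype).comp (symmetryGroup ψ).subtype) where
  inj := fun _ _ h => Subtype.ext (Subtype.ext h)
  adj := fun _ => rfl
  nrm := fun g => (clifford_iff g.1.2).1 g.2.1
  fix := fun g => g.2.2

/-- **Clifford symmetries in dimension `m p ^ k`.** Let `p ≥ 5` be a prime, `m, k ≥ 1`, and let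
`m < p - 1 - √p`, or `k ≥ 2` and `m < p ^ (k - 1) - p ^ (k - 2) - 1`. Let `ψ` be a Weyl–Heisenberg
SIC fiducial in dimension `d = m p ^ k`.
* The group `S` of all Clifford unitaries fixing `ψ` is finite, its order is not divisible by `p`,
  and it embeds into `SL(2, ℤ/p)`.
* If a Clifford unitary `U` has the eigenvector `ψ`, is not a scalar matrix, and commutes up to a
  scalar with the displacement operator `X ^ a Z ^ b`, then `p ^ k` divides `a` and `b`.
* If `d + 1` is not a perfect square, or `m = 1`, then `S` is cyclic, and its order is odd and divides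
  `p - 1` or `p + 1`; thus the order is `1` or `3` for `p = 5` and `p = 7`. -/
theorem result (p k m d : ℕ) [NeZero d] (hp : p.Prime) (hp5 : 5 ≤ p) (hk : 1 ≤ k) (hm : 1 ≤ m)
    (hd : d = m * p ^ k)
    (hdom : (m + 1 < p ∧ p < (p - 1 - m) ^ 2) ∨ (2 ≤ k ∧ m + 2 + p ^ (k - 2) ≤ p ^ (k - 1)))
    (ψ : ZMod d → ℂ) (hψ : IsFiducial ψ) :
    (Finite (symmetryGroup ψ) ∧ ¬ p ∣ Nat.card (symmetryGroup ψ) ∧
      ∃ f : symmetryGroup ψ →* SL(2, ZMod p), Function.Injective f) ∧
    (∀ U : Matrix (ZMod d) (ZMod d) ℂ, IsClifford U → (∃ l : ℂ, U *ᵥ ψ = l • ψ) →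
      (∀ s : ℂ, U ≠ s • 1) → ∀ (a b : ZMod d) (c : ℂ),
      U * displacement a b = c • (displacement a b * U) → p ^ k ∣ a.val ∧ p ^ k ∣ b.val) ∧
    ((¬ IsSquare (d + 1) ∨ m = 1) →
      IsCyclic (symmetryGroup ψ) ∧ Odd (Nat.card (symmetryGroup ψ)) ∧
      (Nat.card (symmetryGroup ψ) ∣ p - 1 ∨ Nat.card (symmetryGroup ψ) ∣ p + 1) ∧
      ((p = 5 ∨ p = 7) →
        Nat.card (symmetryGroup ψ) = 1 ∨ Nat.card (symmetryGroup ψ) = 3)) := by
  have hf := (fid_iff ψ).1 hψ
  have hD := Run7.h40.SICS.dom_of_lt (m := m) hp5 hk hdom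
  have : NeZero (p ^ k) := ⟨(pow_pos hp.pos k).ne'⟩
  have hS := isSym ψ
  refine ⟨⟨hS.finite hf, hS.card_coprime hf hp hp5 hm hD rfl hd,
    hS.exists_sl hf hp hp5 hm hD hd⟩, ?_, ?_⟩
  · intro U hC hl hns a b c hcomm
    obtain ⟨l, hl⟩ := hl
    have hU1 : star U * U = 1 := (Matrix.mem_unitaryGroup_iff').1 hC.1
    have hU2 : U * star U = 1 := (Matrix.mem_unitaryGroup_iff).1 hC.1
    -- normalise the eigenvalue
    have hl1 : star l * l = 1 := by
      have h1 : star (U *ᵥ ψ) ⬝ᵥ (U *ᵥ ψ) = star ψ ⬝ᵥ ψ := by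
        rw [Matrix.star_mulVec, ← Matrix.dotProduct_mulVec, Matrix.mulVec_mulVec]
        change star ψ ⬝ᵥ ((star U * U) *ᵥ ψ) = _
        rw [hU1, Matrix.one_mulVec]
      rw [hl, star_smul, smul_dotProduct, dotProduct_smul, smul_smul] at h1
      have h2 : star ψ ⬝ᵥ ψ ≠ 0 := by
        have := Run7.h40.SICS.overlap_ne hf 0
        rwa [Run7.h40.SICS.DD_zero, Matrix.one_mulVec] at this
      rw [smul_eq_mul] at h1
      exact mul_right_cancel₀ h2 (by rw [one_mul]; exact h1)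
    have hl0 : l ≠ 0 := by
      rintro rfl
      rw [mul_zero] at hl1
      exact zero_ne_one hl1
    obtain ⟨W, hW⟩ : ∃ W, W = star l • U := ⟨_, rfl⟩
    have hWu : W ∈ unitaryGroup (ZMod d) ℂ := by
      rw [Matrix.mem_unitaryGroup_iff', hW, star_smul, Matrix.smul_mul, Matrix.mul_smul, smul_smul,
        hU1, star_star, mul_comm, hl1, one_smul]
    have hWC : IsClifford W := by
      refine ⟨hWu, fun x y => ?_⟩
      obtain ⟨x', y', c', h⟩ := hC.2 x y
      refine ⟨x', y', c', ?_⟩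
      rw [hW, star_smul, Matrix.smul_mul, Matrix.smul_mul, Matrix.mul_smul, smul_smul, star_star,
        hl1, one_smul, h]
    have hWψ : W *ᵥ ψ = ψ := by
      rw [hW, Matrix.smul_mulVec, hl, smul_smul, hl1, one_smul]
    obtain ⟨g, hg⟩ : ∃ g : symmetryGroup ψ, ((g : unitaryGroup (ZMod d) ℂ) :
        Matrix (ZMod d) (ZMod d) ℂ) = W := ⟨⟨⟨W, hWu⟩, hWC, hWψ⟩, rfl⟩
    have hg1 : g ≠ 1 := by
      rintro rfl
      apply hns l
      have h1 : W = 1 := hg.symm
      have h2 : l • W = U := by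
        rw [hW, smul_smul, mul_comm, hl1, one_smul]
      rw [← h2, h1]
    obtain ⟨ρ, hρ⟩ := hS.exists_rho
    have hWcomm : W * Run7.h40.SICS.DD ![a, b] = c • (Run7.h40.SICS.DD ![a, b] * W) := by
      change W * R503.SIC.Dm a b = c • (R503.SIC.Dm a b * W)
      rw [← displacement_eq, hW, Matrix.smul_mul, hcomm, Matrix.mul_smul, smul_comm]
    have hfixv : ρ g *ᵥ ![a, b] = ![a, b] := by
      obtain ⟨c', hc'⟩ := hρ g ![a, b]
      have h1 : W * Run7.h40.SICS.DD ![a, b] =
          c' • (Run7.h40.SICS.DD (ρ g *ᵥ ![a, b]) * W) := by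
        rw [← hg]
        exact hc'
      have hWunit : IsUnit W :=
        ⟨⟨W, star W, (Matrix.mem_unitaryGroup_iff).1 hWu, (Matrix.mem_unitaryGroup_iff').1 hWu⟩,
          rfl⟩
      exact (Run7.h40.SICS.img_unique hWunit hWcomm h1).symm
    have h0 := hS.free hf hp hp5 hm hD rfl hd hρ hg1 hfixv
    have h2 : ∀ x : ZMod d, Run7.h40.SICS.red (D := p ^ k) hd x = 0 → p ^ k ∣ x.val := by
      intro x hx
      have h1 : (x.val : ZMod d) = x := ZMod.natCast_zmod_val x
      rw [← h1, map_natCast, ZMod.natCast_eq_zero_iff] at hx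
      exact hx
    exact ⟨h2 a (h0 0), h2 b (h0 1)⟩
  · intro hsq
    have hsq' : ¬ IsSquare (d + 1) := by
      rcases hsq with h | h
      · exact h
      · rw [h] at hd
        exact Run7.h40.SICS.not_square hp hp5 hk hd
    obtain ⟨h1, h2, h3⟩ := hS.main hf hp hp5 hm hD hd hsq'
    refine ⟨h1, h2, h3, ?_⟩
    intro h57
    obtain ⟨n, hn⟩ : ∃ n, n = Nat.card (symmetryGroup ψ) := ⟨_, rfl⟩
    rw [← hn] at h2 h3 ⊢
    have h4 : n ≤ 8 := by
      rcases h57 with h | h <;> rcases h3 with h3 | h3 <;> rw [h] at h3 <;>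
        exact (Nat.le_of_dvd (by norm_num) h3).trans (by norm_num)
    rcases h57 with h | h <;> rw [h] at h3 <;> interval_cases n <;> revert h2 h3 <;> decide

end Pool.Agent.Results.MP_1c78a5_mp.PrimePowerSymmetry
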